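import Pool.Agent.Helper61.RC.Stmt

/-!
Radius of comparison of the crossed product by a power of a homeomorphism: one of the two
inequalities of the question, for every infinite compact metric space `X`, every `n ≥ 1` and every
homeomorphism `h` with `h ^ n` minimal.

Definitions (files `Pool/Agent/Helper61/RC/Stmt.lean` and `Pool/Agent/Helper61/RC/Defs.lean`):
`crossed h` is the crossed product `C*(Z, X, h)` in its regular representation on `l^2(Z x X)`,
`CuntzLE` is Cuntz subequivalence, `TracialState A` the tracial states,
`dTr τ a = lim τ(a^{1/m})`, `ComparesOf A s` the comparison property with gap `s`, `rcOf A` the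
infimum of the gaps `s > 0` with comparison, `ComparesCross h s` and `rcCross h` are these for
`crossed h`, and `MinimalHomeo h` says that every orbit is dense.
-/

set_option autoImplicit false

open scoped ENNReal

namespace Pool.Agent.Results.MP_d05fd5_an.MulRcLe

open Pool.Agent.Helper61.RC

universe u

/-- For `h ^ n` minimal on an infinite compact metric space:
(1) if comparison with gap `R` holds in `C*(Z, X, h ^ n)`, then comparison with gap `R / n` holds
in `C*(Z, X, h)`;
(2) `n * rc(C*(Z, X, h)) ≤ rc(C*(Z, X, h ^ n))`. -/
theorem result (X : Type u) [MetricSpace X] [CompactSpace X] [Infinite X] (h : X ≃ₜ X) (n : ℕ)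
    (hn : 0 < n) (hmin : MinimalHomeo (h ^ n)) :
    (∀ R : ℝ, 0 < R → ComparesCross (h ^ n) R → ComparesCross h (R / n)) ∧
      (n : ℝ≥0∞) * rcCross h ≤ rcCross (h ^ n) := by
  have : NeZero n := ⟨hn.ne'⟩
  refine ⟨fun R hR hc => ?_, ?_⟩
  · rw [comparesCross_iff] at hc ⊢
    exact comparesAt_of_pow h n hmin R hR hc
  · rw [rcCross_eq, rcCross_eq]
    exact mul_rc_le h n hn hmin

end Pool.Agent.Results.MP_d05fd5_an.MulRcLe
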